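import Mathlib
import Pool.Agent.Lib_helper94.XO.Defs

/-!
# Part III (conservation of atoms is impossible): definitions

`p3T σ b x` is the value of the term with bits `b` on the sequence `x` (only the first
`2 ^ b.length` entries of `x` matter). Words are functions `ω : ℕ → Finset (Fin Λ)`, of which only
the letters `ω r`, `r < n`, matter.
-/

set_option autoImplicit false

namespace Pool.Agent.XO

open Finset

section P3

variable {S : Type}

/-- the value of the term `b` on the sequence `x` (the head of `b` is the last gate) -/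
def p3T (σ : S → S → S × S) : List Bool → (ℕ → S) → S
  | [], x => x 0
  | false :: b, x => (σ (p3T σ b fun i => x (2 * i)) (p3T σ b fun i => x (2 * i + 1))).1
  | true :: b, x => (σ (p3T σ b fun i => x (2 * i)) (p3T σ b fun i => x (2 * i + 1))).2

/-- `ι 0 < ι 1 < ⋯ < ι (n - 1)` are elements of `X` -/
def p3inc (n : ℕ) (X : Finset ℕ) (ι : ℕ → ℕ) : Prop :=
  (∀ i, i < n → ι i ∈ X) ∧ ∀ i j, i < j → j < n → ι i < ι j

/-- a system of letters: `w x i` is the set of the letters of the `i`-th block which are in `x` -/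
structure P3Sys (Λ D M : ℕ) (e : S → ℝ) (σ : S → S → S × S) (w : S → ℕ → Finset (Fin Λ))
    (y : ℕ → S) : Prop where
  sgn : ∀ x, e x = 1 ∨ e x = -1
  supp : ∀ b : List Bool, b.length ≤ D → ∀ ι, p3inc (2 ^ b.length) (range M) ι → ∀ i,
    (∀ r, r < 2 ^ b.length → i ≠ ι r) → w (p3T σ b fun r => y (ι r)) i = ∅
  cons : ∀ b : List Bool, b.length < D → ∀ ι, p3inc (2 ^ (b.length + 1)) (range M) ι → ∀ i,
    w (p3T σ (false :: b) fun r => y (ι r)) i ∪ w (p3T σ (true :: b) fun r => y (ι r)) i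
      = w (p3T σ b fun r => y (ι (2 * r))) i ∪ w (p3T σ b fun r => y (ι (2 * r + 1))) i
  disj : ∀ b : List Bool, b.length < D → ∀ ι, p3inc (2 ^ (b.length + 1)) (range M) ι → ∀ i,
    Disjoint (w (p3T σ (false :: b) fun r => y (ι r)) i)
      (w (p3T σ (true :: b) fun r => y (ι r)) i)
  flip : ∀ b : List Bool, b.length < D → ∀ ι, p3inc (2 ^ (b.length + 1)) (range M) ι →
    e (p3T σ (false :: b) fun r => y (ι r)) * e (p3T σ (true :: b) fun r => y (ι r))
      = -(e (p3T σ b fun r => y (ι (2 * r))) * e (p3T σ b fun r => y (ι (2 * r + 1))))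
  uniq : ∀ b b' : List Bool, b.length ≤ D → b'.length ≤ D → ∀ ι ι',
    p3inc (2 ^ b.length) (range M) ι → p3inc (2 ^ b'.length) (range M) ι' →
    (∀ i, w (p3T σ b fun r => y (ι r)) i = w (p3T σ b' fun r => y (ι' r)) i) →
    e (p3T σ b fun r => y (ι r)) = e (p3T σ b' fun r => y (ι' r))

/-- `b` is homogeneous on `X`: the sign is `ε`, the word is `ω` -/
def P3Hom {Λ : ℕ} (e : S → ℝ) (σ : S → S → S × S) (w : S → ℕ → Finset (Fin Λ)) (y : ℕ → S)
    (X : Finset ℕ) (b : List Bool) (ω : ℕ → Finset (Fin Λ)) (ε : ℝ) : Prop :=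
  ∀ ι, p3inc (2 ^ b.length) X ι → e (p3T σ b fun r => y (ι r)) = ε ∧
    ∀ r, r < 2 ^ b.length → w (p3T σ b fun r => y (ι r)) (ι r) = ω r

end P3

section words

variable {Λ : ℕ}

/-- the positions of the non-empty letters -/
def p3P (n : ℕ) (ω : ℕ → Finset (Fin Λ)) : Finset ℕ := (range n).filter fun r => (ω r).Nonempty

/-- the number of atoms -/
def p3lam (n : ℕ) (ω : ℕ → Finset (Fin Λ)) : ℕ := ∑ r ∈ range n, (ω r).card

/-- the number of non-empty letters -/
def p3nu (n : ℕ) (ω : ℕ → Finset (Fin Λ)) : ℕ := (p3P n ω).card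

/-- a run starts at `j`: the letter is non-empty and the previous non-empty letter, if there is
one, is different -/
def p3start (n : ℕ) (ω : ℕ → Finset (Fin Λ)) (j : ℕ) : Prop :=
  j ∈ p3P n ω ∧ ∀ i, i < j → i ∈ p3P n ω → (∀ k, i < k → k < j → k ∉ p3P n ω) → ω i ≠ ω j

open Classical in
/-- the number of the run at the position `i` -/
noncomputable def p3rid (n : ℕ) (ω : ℕ → Finset (Fin Λ)) (i : ℕ) : ℕ :=
  ((range (i + 1)).filter (p3start n ω)).card

/-- the sum of the squares of the lengths of the runs -/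
noncomputable def p3Psi (n : ℕ) (ω : ℕ → Finset (Fin Λ)) : ℕ :=
  ((p3P n ω ×ˢ p3P n ω).filter fun q => p3rid n ω q.1 = p3rid n ω q.2).card

/-- the word `ω'` (of length `n'`) is better than the word `ω` (of length `n`) -/
def p3better (n' : ℕ) (ω' : ℕ → Finset (Fin Λ)) (n : ℕ) (ω : ℕ → Finset (Fin Λ)) : Prop :=
  p3lam n' ω' < p3lam n ω ∨ (p3lam n' ω' = p3lam n ω ∧ (p3nu n ω < p3nu n' ω' ∨
    (p3nu n' ω' = p3nu n ω ∧ p3Psi n ω < p3Psi n' ω')))

/-- the words `ω` and `ω'` are equal up to empty letters, and `f` matches the letters -/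
structure p3iso (n : ℕ) (ω : ℕ → Finset (Fin Λ)) (n' : ℕ) (ω' : ℕ → Finset (Fin Λ))
    (f : ℕ → ℕ) : Prop where
  maps : ∀ i ∈ p3P n ω, f i ∈ p3P n' ω'
  mono : ∀ i ∈ p3P n ω, ∀ j ∈ p3P n ω, i < j → f i < f j
  surj : ∀ q ∈ p3P n' ω', ∃ i ∈ p3P n ω, f i = q
  letter : ∀ i ∈ p3P n ω, ω' (f i) = ω i

end words

end Pool.Agent.XO
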